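import Pool.Agent.Helper23.MC.Goals2
import Pool.Agent.Helper88.CG.TE
import Pool.Agent.Helper88.CG.MainA

/-!
# Prescribed clusters of primes in deserts of record size: `StmtRT`
-/

set_option autoImplicit false

open Finset Filter Topology

open scoped Classical

namespace Pool.Agent.Helper32.MC

open Pool.Agent.Helper88.PP (pr)
open Pool.Agent.Helper88.CG (th prk te_tel mRB)

lemma rt_mem {Y1 Y2 p : ℕ} : p ∈ pr Y1 Y2 ↔ (Y1 < p ∧ p ≤ Y2) ∧ p.Prime := by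
  simp only [pr, mem_filter, mem_Ioc]

lemma rt_phi (D : Finset ℕ) (hD : ∀ p ∈ D, p.Prime) :
    (Nat.totient (∏ p ∈ D, p) : ℝ) = ∏ p ∈ D, ((p : ℝ) - 1) := by
  induction D using Finset.induction_on with
  | empty => simp
  | insert q s hq ih =>
    have hs : ∀ p ∈ s, p.Prime := fun p hp => hD p (mem_insert_of_mem hp)
    have hqp : q.Prime := hD q (mem_insert_self _ _)
    rw [prod_insert hq, prod_insert hq]
    have hc : Nat.Coprime q (∏ p ∈ s, p) := by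
      refine Nat.Coprime.prod_right fun p hp => ?_
      rw [Nat.coprime_primes hqp (hs p hp)]
      rintro rfl
      exact hq hp
    rw [Nat.totient_mul hc, Nat.totient_prime hqp]
    push_cast [hqp.one_le]
    rw [ih hs]

lemma rt_dy (A x0 : ℕ) (hRB : ∀ x k P : ℕ, x0 ≤ x → 1 ≤ k → 1 ≤ P → (k * P) ^ 4 ≤ x →
    ∀ a : ℕ → ℕ, (∀ p ∈ prk k P, Nat.Coprime (a p) (k * p)) →
    ∑ p ∈ prk k P, |th x (k * p) (a p) - th x k (a p) / ((p : ℝ) - 1)|
      ≤ x / k * Real.log x ^ A * (1 / P + (x : ℝ) ^ (-(1 / 50) : ℝ)))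
    (x k Y1 Y2 r : ℕ) (h0 : x0 ≤ x) (hx1 : 1 ≤ x) (hk : 1 ≤ k) (hY1 : 1 ≤ Y1) (hY : Y1 ≤ Y2)
    (hR : (k * Y2 ^ r) ^ 4 ≤ x) (a : Finset ℕ → ℕ)
    (ha : ∀ D ⊆ pr Y1 Y2, D.card ≤ r → Nat.Coprime (a D) (k * ∏ p ∈ D, p))
    (hkp : ∀ p ∈ pr Y1 Y2, ¬ p ∣ k) (U V : Finset ℕ) (hU : U ⊆ pr Y1 Y2) (hV : V ⊆ pr Y1 Y2) :
    ∑ p ∈ (pr Y1 Y2).filter (fun p => p ∉ U ∧ (insert p (U ∪ V)).card ≤ r),
      |th x (k * (∏ q ∈ U, q) * p) (a (insert p (U ∪ V)))
        - th x (k * ∏ q ∈ U, q) (a (insert p (U ∪ V))) / ((p : ℝ) - 1)|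
    ≤ x / (k * ∏ q ∈ U, (q : ℝ)) * Real.log x ^ A * (2 / Y1 + ((Nat.log 2 Y2 + 1 : ℕ) : ℝ) *
        (x : ℝ) ^ (-(1 / 50) : ℝ)) := by
  set u : ℕ := ∏ q ∈ U, q with hu
  have huR : ∏ q ∈ U, (q : ℝ) = (u : ℝ) := by
    rw [hu]
    push_cast
    rfl
  rw [huR]
  have hu1 : 1 ≤ u := by
    rw [hu]
    refine Nat.pos_of_ne_zero (prod_ne_zero_iff.mpr fun q hq => ?_)
    exact (rt_mem.mp (hU hq)).2.ne_zero
  set W : ℕ → ℝ := fun p =>
    |th x (k * u * p) (a (insert p (U ∪ V))) - th x (k * u) (a (insert p (U ∪ V))) / ((p : ℝ) - 1)|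
    with hW
  have hW0 : ∀ p, 0 ≤ W p := fun p => abs_nonneg _
  have hx0 : (0 : ℝ) < x := by exact_mod_cast hx1
  have hlog : 0 ≤ Real.log x := Real.log_natCast_nonneg x
  set S := (pr Y1 Y2).filter (fun p => p ∉ U ∧ (insert p (U ∪ V)).card ≤ r) with hS
  have hSm : ∀ p, p ∈ S ↔ p ∈ pr Y1 Y2 ∧ p ∉ U ∧ (insert p (U ∪ V)).card ≤ r := by
    intro p
    rw [hS, mem_filter]
  set I := Nat.log 2 Y2 + 1 with hI
  have h1 : ∑ p ∈ S, W p ≤ ∑ p ∈ S, ∑ i ∈ range I,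
      if p ∈ Ioc (Y1 * 2 ^ i) (2 * (Y1 * 2 ^ i)) then W p else 0 := by
    refine sum_le_sum fun p hp => ?_
    obtain ⟨⟨hzp, hpR⟩, hpp⟩ := rt_mem.mp ((hSm p).mp hp).1
    have hq1 : 1 ≤ (p - 1) / Y1 := (Nat.one_le_div_iff (by omega)).mpr (by omega)
    have h2 : 2 ^ (Nat.log 2 ((p - 1) / Y1)) ≤ (p - 1) / Y1 := Nat.pow_log_le_self 2 (by omega)
    have h3 : (p - 1) / Y1 < 2 ^ (Nat.log 2 ((p - 1) / Y1) + 1) :=
      Nat.lt_pow_succ_log_self (by norm_num) _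
    have h4 : Y1 * 2 ^ (Nat.log 2 ((p - 1) / Y1)) ≤ p - 1 :=
      (Nat.mul_le_mul_left Y1 h2).trans (Nat.mul_div_le _ _)
    have h5 : p - 1 < Y1 * 2 ^ (Nat.log 2 ((p - 1) / Y1) + 1) := by
      have := (Nat.div_lt_iff_lt_mul (by omega : 0 < Y1)).mp h3
      rw [mul_comm] at this
      exact this
    have h6 : Nat.log 2 ((p - 1) / Y1) ∈ range I := by
      rw [mem_range, hI]
      have : Nat.log 2 ((p - 1) / Y1) ≤ Nat.log 2 Y2 :=
        Nat.log_mono_right ((Nat.div_le_self _ _).trans (by omega))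
      omega
    have h7 : W p = if p ∈ Ioc (Y1 * 2 ^ (Nat.log 2 ((p - 1) / Y1)))
        (2 * (Y1 * 2 ^ (Nat.log 2 ((p - 1) / Y1)))) then W p else 0 := by
      rw [if_pos]
      rw [mem_Ioc]
      rw [pow_succ] at h5
      constructor
      · omega
      · have : Y1 * (2 ^ Nat.log 2 ((p - 1) / Y1) * 2) = 2 * (Y1 * 2 ^ Nat.log 2 ((p - 1) / Y1)) := by
          ring
        omega
    calc W p = _ := h7
      _ ≤ _ := single_le_sum
          (f := fun i => if p ∈ Ioc (Y1 * 2 ^ i) (2 * (Y1 * 2 ^ i)) then W p else 0)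
          (fun i _ => by split_ifs <;> first | exact hW0 p | exact le_rfl) h6
  rw [sum_comm] at h1
  have h2 : ∀ i ∈ range I, (∑ p ∈ S, if p ∈ Ioc (Y1 * 2 ^ i) (2 * (Y1 * 2 ^ i)) then W p else 0)
      ≤ x / (k * u) * Real.log x ^ A * (1 / Y1 * (1 / 2) ^ i + (x : ℝ) ^ (-(1 / 50) : ℝ)) := by
    intro i _
    rw [← sum_filter]
    rcases (S.filter (fun p => p ∈ Ioc (Y1 * 2 ^ i) (2 * (Y1 * 2 ^ i)))).eq_empty_or_nonempty with
      he | ⟨p0, hp0⟩
    · rw [he, sum_empty]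
      positivity
    · rw [mem_filter, mem_Ioc] at hp0
      obtain ⟨hp1, hp2, hp3⟩ := (hSm p0).mp hp0.1
      have hcard : U.card + 1 ≤ r := by
        refine le_trans ?_ hp3
        rw [← card_insert_of_notMem hp2]
        exact card_le_card (insert_subset_insert _ subset_union_left)
      have h3 : u * (Y1 * 2 ^ i) ≤ Y2 ^ r := by
        calc u * (Y1 * 2 ^ i) ≤ u * p0 := Nat.mul_le_mul_left u hp0.2.1.le
          _ ≤ Y2 ^ U.card * Y2 := by
              refine Nat.mul_le_mul ?_ (rt_mem.mp hp1).1.2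
              rw [hu]
              exact prod_le_pow_card _ _ _ fun q hq => (rt_mem.mp (hU hq)).1.2
          _ = Y2 ^ (U.card + 1) := by rw [pow_succ]
          _ ≤ Y2 ^ r := Nat.pow_le_pow_right (by omega) hcard
      have h4 : (k * u * (Y1 * 2 ^ i)) ^ 4 ≤ x := by
        refine le_trans (Nat.pow_le_pow_left ?_ 4) hR
        rw [mul_assoc]
        exact Nat.mul_le_mul_left k h3
      have h5 := hRB x (k * u) (Y1 * 2 ^ i) h0 (Nat.mul_pos hk hu1)
        (Nat.mul_pos hY1 (by positivity)) h4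
        (fun p => if p ∈ S then a (insert p (U ∪ V)) else 1) (by
          intro p _
          split_ifs with h
          · obtain ⟨g1, g2, g3⟩ := (hSm p).mp h
            have := ha (insert p (U ∪ V))
              (insert_subset g1 (union_subset hU hV)) g3
            refine Nat.Coprime.coprime_dvd_right ?_ this
            rw [mul_assoc]
            refine mul_dvd_mul_left k ?_
            have e1 : u * p = ∏ q ∈ insert p U, q := by
              rw [prod_insert g2, mul_comm]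
            rw [e1]
            exact prod_dvd_prod_of_subset _ _ _ (insert_subset_insert _ subset_union_left)
          · exact Nat.coprime_one_left _)
      have h6 : S.filter (fun p => p ∈ Ioc (Y1 * 2 ^ i) (2 * (Y1 * 2 ^ i)))
          ⊆ prk (k * u) (Y1 * 2 ^ i) := by
        intro p hp
        rw [mem_filter] at hp
        obtain ⟨g1, g2, g3⟩ := (hSm p).mp hp.1
        have gp := (rt_mem.mp g1).2
        simp only [prk, mem_filter]
        refine ⟨hp.2, gp, ?_⟩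
        intro hd
        rcases (Nat.Prime.dvd_mul gp).mp hd with h | h
        · exact hkp p g1 h
        · rw [hu] at h
          obtain ⟨q, hq, hpq⟩ := (Prime.dvd_finsetProd_iff gp.prime _).mp h
          have hqp := (rt_mem.mp (hU hq)).2
          have := (Nat.prime_dvd_prime_iff_eq gp hqp).mp hpq
          subst this
          exact g2 hq
      calc ∑ p ∈ S.filter (fun p => p ∈ Ioc (Y1 * 2 ^ i) (2 * (Y1 * 2 ^ i))), W p
          = ∑ p ∈ S.filter (fun p => p ∈ Ioc (Y1 * 2 ^ i) (2 * (Y1 * 2 ^ i))),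
            |th x (k * u * p) ((fun p => if p ∈ S then a (insert p (U ∪ V)) else 1) p)
              - th x (k * u) ((fun p => if p ∈ S then a (insert p (U ∪ V)) else 1) p)
                / ((p : ℝ) - 1)| := by
            refine sum_congr rfl fun p hp => ?_
            rw [mem_filter] at hp
            simp only [hW, if_pos hp.1]
        _ ≤ ∑ p ∈ prk (k * u) (Y1 * 2 ^ i),
            |th x (k * u * p) ((fun p => if p ∈ S then a (insert p (U ∪ V)) else 1) p)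
              - th x (k * u) ((fun p => if p ∈ S then a (insert p (U ∪ V)) else 1) p)
                / ((p : ℝ) - 1)| :=
            sum_le_sum_of_subset_of_nonneg h6 (fun _ _ _ => abs_nonneg _)
        _ ≤ _ := h5
        _ = _ := by
            push_cast
            congr 2
            rw [one_div_pow, one_div_mul_one_div]
  refine h1.trans ((sum_le_sum h2).trans ?_)
  rw [← mul_sum, sum_add_distrib, ← mul_sum, sum_const, card_range, nsmul_eq_mul]
  refine mul_le_mul_of_nonneg_left ?_ (by positivity)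
  refine add_le_add ?_ le_rfl
  have h3 : ∑ i ∈ range I, (1 / 2 : ℝ) ^ i ≤ 2 := sum_geometric_two_le I
  calc 1 / (Y1 : ℝ) * ∑ i ∈ range I, (1 / 2 : ℝ) ^ i ≤ 1 / (Y1 : ℝ) * 2 :=
        mul_le_mul_of_nonneg_left h3 (by positivity)
    _ = 2 / Y1 := by ring

lemma rt_split {D : Finset ℕ} {p : ℕ} (hp : p ∈ D) :
    insert p (D.filter (fun q => q < p) ∪ D.filter (fun q => p < q)) = D ∧
    D.card = (D.filter (fun q => q < p)).card + 1 + (D.filter (fun q => p < q)).card := by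
  have hu : insert p (D.filter (fun q => q < p) ∪ D.filter (fun q => p < q)) = D := by
    ext q
    simp only [mem_insert, mem_union, mem_filter]
    constructor
    · rintro (h | h | h)
      · rw [h]; exact hp
      · exact h.1
      · exact h.1
    · intro h
      rcases lt_trichotomy q p with h1 | h1 | h1
      · exact Or.inr (Or.inl ⟨h, h1⟩)
      · exact Or.inl h1
      · exact Or.inr (Or.inr ⟨h, h1⟩)
  refine ⟨hu, ?_⟩
  have hn : p ∉ D.filter (fun q => q < p) ∪ D.filter (fun q => p < q) := by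
    simp only [mem_union, mem_filter]
    rintro (h | h) <;> exact lt_irrefl _ h.2
  have hd : Disjoint (D.filter (fun q => q < p)) (D.filter (fun q => p < q)) := by
    rw [disjoint_left]
    intro q hq hq'
    rw [mem_filter] at hq hq'
    omega
  conv_lhs => rw [← hu]
  rw [card_insert_of_notMem hn, card_union_of_disjoint hd]
  omega

lemma rt_sum (s : Finset ℕ) (g : ℕ → ℝ) (L : ℕ) :
    ∑ U ∈ s.powerset, (L : ℝ) ^ U.card / ∏ q ∈ U, g q = ∏ q ∈ s, (1 + (L : ℝ) / g q) := by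
  rw [prod_one_add]
  refine sum_congr rfl fun U _ => ?_
  rw [prod_div_distrib, prod_const]

lemma rt_main (A x0 : ℕ) (hRB : ∀ x k P : ℕ, x0 ≤ x → 1 ≤ k → 1 ≤ P → (k * P) ^ 4 ≤ x →
    ∀ a : ℕ → ℕ, (∀ p ∈ prk k P, Nat.Coprime (a p) (k * p)) →
    ∑ p ∈ prk k P, |th x (k * p) (a p) - th x k (a p) / ((p : ℝ) - 1)|
      ≤ x / k * Real.log x ^ A * (1 / P + (x : ℝ) ^ (-(1 / 50) : ℝ)))
    (x k Y1 Y2 L r : ℕ) (h0 : x0 ≤ x) (hx1 : 1 ≤ x) (hk : 1 ≤ k) (hY1 : 1 ≤ Y1) (hY : Y1 ≤ Y2)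
    (hR : (k * Y2 ^ r) ^ 4 ≤ x) (a : Finset ℕ → ℕ)
    (ha : ∀ D ⊆ pr Y1 Y2, D.card ≤ r → Nat.Coprime (a D) (k * ∏ p ∈ D, p))
    (hkp : ∀ p ∈ pr Y1 Y2, ¬ p ∣ k) :
    ∑ D ∈ (pr Y1 Y2).powerset.filter (fun D => D.card ≤ r), (L : ℝ) ^ D.card *
      |th x (k * ∏ p ∈ D, p) (a D) - th x k (a D) / (Nat.totient (∏ p ∈ D, p) : ℝ)|
    ≤ ((∏ p ∈ pr Y1 Y2, (1 + (L : ℝ) / (p : ℝ))) * ∏ p ∈ pr Y1 Y2, (1 + (L : ℝ) / ((p : ℝ) - 1))) *
      (L * (x / k * Real.log x ^ A *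
        (2 / Y1 + ((Nat.log 2 Y2 + 1 : ℕ) : ℝ) * (x : ℝ) ^ (-(1 / 50) : ℝ)))) := by
  have hx0 : (0 : ℝ) < x := by exact_mod_cast hx1
  have hlog : 0 ≤ Real.log x := Real.log_natCast_nonneg x
  have hk0 : (0 : ℝ) < k := by exact_mod_cast hk
  set B : ℝ := x / k * Real.log x ^ A *
        (2 / Y1 + ((Nat.log 2 Y2 + 1 : ℕ) : ℝ) * (x : ℝ) ^ (-(1 / 50) : ℝ)) with hB
  have hB0 : 0 ≤ B := by positivity
  set S : Finset ℕ := pr Y1 Y2 with hSdef
  have hSp : ∀ p ∈ S, p.Prime := fun p hp => (rt_mem.mp hp).2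
  have hgp : ∀ p ∈ S, (0 : ℝ) < (p : ℝ) - 1 := by
    intro p hp
    have : (2 : ℝ) ≤ p := by exact_mod_cast (hSp p hp).two_le
    linarith
  have hgp0 : ∀ p ∈ S, (0 : ℝ) < (p : ℝ) := by
    intro p hp
    have := hgp p hp
    linarith
  set T : Finset (Finset ℕ) := S.powerset.filter (fun D => D.card ≤ r) with hT
  have hTm : ∀ D, D ∈ T ↔ D ⊆ S ∧ D.card ≤ r := by
    intro D
    rw [hT, mem_filter, mem_powerset]
  set lo : Finset ℕ → ℕ → Finset ℕ := fun D p => D.filter (fun q => q < p) with hlo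
  set hi : Finset ℕ → ℕ → Finset ℕ := fun D p => D.filter (fun q => p < q) with hhi
  set G : Finset ℕ × Finset ℕ × ℕ → ℝ := fun t =>
    if t.2.2 ∉ t.1 ∧ (insert t.2.2 (t.1 ∪ t.2.1)).card ≤ r then
    (L : ℝ) ^ t.1.card * L * (L : ℝ) ^ t.2.1.card *
      |th x (k * (∏ q ∈ t.1, q) * t.2.2) (a (insert t.2.2 (t.1 ∪ t.2.1)))
        - th x (k * ∏ q ∈ t.1, q) (a (insert t.2.2 (t.1 ∪ t.2.1))) / ((t.2.2 : ℝ) - 1)|
        / ∏ q ∈ t.2.1, ((q : ℝ) - 1) else 0 with hG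
  have hV0 : ∀ V ∈ S.powerset, 0 < ∏ q ∈ V, ((q : ℝ) - 1) := by
    intro V hV
    rw [mem_powerset] at hV
    exact prod_pos fun q hq => hgp q (hV hq)
  have hU0 : ∀ U ∈ S.powerset, 0 < ∏ q ∈ U, (q : ℝ) := by
    intro V hV
    rw [mem_powerset] at hV
    exact prod_pos fun q hq => hgp0 q (hV hq)
  have hG0 : ∀ t ∈ S.powerset ×ˢ (S.powerset ×ˢ S), 0 ≤ G t := by
    intro t ht
    rw [mem_product, mem_product] at ht
    have := hV0 _ ht.2.1
    simp only [hG]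
    split_ifs
    · positivity
    · exact le_rfl
  -- step 1
  have h1 : ∀ D ∈ T, (L : ℝ) ^ D.card *
      |th x (k * ∏ p ∈ D, p) (a D) - th x k (a D) / (Nat.totient (∏ p ∈ D, p) : ℝ)|
      ≤ ∑ p ∈ D, G (lo D p, hi D p, p) := by
    intro D hD
    have hDS := ((hTm D).mp hD).1
    have h2 := te_tel (fun m => th x (k * m) (a D)) D
      (fun p hp => (hSp p (hDS hp)).two_le)
    rw [mul_one, ← rt_phi D (fun p hp => hSp p (hDS hp))] at h2
    refine (mul_le_mul_of_nonneg_left h2 (by positivity)).trans ?_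
    rw [mul_sum]
    refine sum_le_sum fun p hp => ?_
    obtain ⟨e1, e4⟩ := rt_split hp
    have hD' : insert p (lo D p ∪ hi D p) = D := e1
    have hn : p ∉ lo D p := by
      simp only [hlo, mem_filter]
      rintro ⟨_, h⟩
      exact lt_irrefl _ h
    simp only [hG]
    rw [hD', if_pos ⟨hn, ((hTm D).mp hD).2⟩]
    rw [e4, pow_add, pow_add, pow_one]
    rw [mul_assoc k, ← mul_div_assoc]
  refine (sum_le_sum h1).trans ?_
  rw [sum_sigma']
  have hinj : Set.InjOn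
      (fun t : (Σ _ : Finset ℕ, ℕ) =>
        ((lo t.1 t.2, hi t.1 t.2, t.2) : Finset ℕ × Finset ℕ × ℕ))
      ((T.sigma (fun D => D) : Finset (Σ _ : Finset ℕ, ℕ)) : Set (Σ _ : Finset ℕ, ℕ)) := by
    rintro ⟨D, p⟩ hD ⟨D', p'⟩ hD' h
    simp only [mem_coe, mem_sigma] at hD hD'
    simp only [Prod.mk.injEq] at h
    obtain ⟨h2, h3, h4⟩ := h
    subst h4
    have e1 : insert p (lo D p ∪ hi D p) = D := (rt_split hD.2).1
    have e2 : insert p (lo D' p ∪ hi D' p) = D' := (rt_split hD'.2).1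
    have : D = D' := by rw [← e1, ← e2, h2, h3]
    subst this
    rfl
  have h2 : ∑ t ∈ T.sigma (fun D => D), G (lo t.1 t.2, hi t.1 t.2, t.2)
      ≤ ∑ t ∈ S.powerset ×ˢ (S.powerset ×ˢ S), G t := by
    rw [← sum_image (f := G) hinj]
    refine sum_le_sum_of_subset_of_nonneg ?_ (fun t ht _ => hG0 t ht)
    intro t ht
    rw [mem_image] at ht
    obtain ⟨⟨D, p⟩, hD, rfl⟩ := ht
    rw [mem_sigma] at hD
    have hDS := ((hTm D).mp hD.1).1
    simp only [mem_product, mem_powerset]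
    exact ⟨(filter_subset _ _).trans hDS, (filter_subset _ _).trans hDS, hDS hD.2⟩
  refine h2.trans ?_
  rw [sum_product]
  -- step 2
  have h3 : ∀ U ∈ S.powerset, ∑ t ∈ S.powerset ×ˢ S, G (U, t)
      ≤ ∑ V ∈ S.powerset, ((L : ℝ) ^ U.card / ∏ q ∈ U, (q : ℝ)) *
        ((L : ℝ) ^ V.card / ∏ q ∈ V, ((q : ℝ) - 1)) * (L * B) := by
    intro U hU
    rw [sum_product]
    refine sum_le_sum fun V hV => ?_
    have hu0 := hU0 U hU
    have hv0 := hV0 V hV
    have h4 := rt_dy A x0 hRB x k Y1 Y2 r h0 hx1 hk hY1 hY hR a ha hkp U V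
      (mem_powerset.mp hU) (mem_powerset.mp hV)
    have h5 : ∑ p ∈ S, G (U, V, p)
        = ((L : ℝ) ^ U.card * L * (L : ℝ) ^ V.card / ∏ q ∈ V, ((q : ℝ) - 1)) *
          ∑ p ∈ (pr Y1 Y2).filter (fun p => p ∉ U ∧ (insert p (U ∪ V)).card ≤ r),
          |th x (k * (∏ q ∈ U, q) * p) (a (insert p (U ∪ V)))
            - th x (k * ∏ q ∈ U, q) (a (insert p (U ∪ V))) / ((p : ℝ) - 1)| := by
      rw [mul_sum, sum_filter]
      refine sum_congr rfl fun p _ => ?_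
      simp only [hG]
      split_ifs
      · ring
      · rfl
    rw [h5]
    refine (mul_le_mul_of_nonneg_left h4 (by positivity)).trans (le_of_eq ?_)
    rw [hB]
    field_simp
  refine (sum_le_sum h3).trans (le_of_eq ?_)
  rw [← rt_sum, ← rt_sum, sum_mul_sum, sum_mul]
  refine sum_congr rfl fun U _ => ?_
  rw [sum_mul]

lemma rt_exp (s : Finset ℕ) (g : ℕ → ℝ) (L : ℕ) (c : ℝ) (hg : ∀ p ∈ s, 0 < g p)
    (h : ∀ p ∈ s, 1 / g p ≤ c * (1 / (p : ℝ))) :
    ∏ p ∈ s, (1 + (L : ℝ) / g p) ≤ Real.exp (c * L * ∑ p ∈ s, 1 / (p : ℝ)) := by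
  calc ∏ p ∈ s, (1 + (L : ℝ) / g p) ≤ ∏ p ∈ s, Real.exp ((L : ℝ) / g p) := by
        refine prod_le_prod (fun p hp => ?_) (fun p hp => ?_)
        · have := hg p hp
          positivity
        · rw [add_comm]
          exact Real.add_one_le_exp _
    _ = Real.exp (∑ p ∈ s, (L : ℝ) / g p) := by rw [Real.exp_sum]
    _ ≤ _ := by
        apply Real.exp_le_exp.mpr
        rw [mul_sum]
        refine sum_le_sum fun p hp => ?_
        calc (L : ℝ) / g p = L * (1 / g p) := by ring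
          _ ≤ L * (c * (1 / (p : ℝ))) := mul_le_mul_of_nonneg_left (h p hp) (by positivity)
          _ = _ := by ring

/-- MC-RT. -/
theorem rt : Pool.Agent.Helper23.MC.StmtRT := by
  obtain ⟨A, x0, hRB⟩ := mRB
  refine ⟨A + 2, max x0 (max 1 ⌈Real.exp 5⌉₊), ?_⟩
  intro x k Y1 Y2 L r hx hk hY1 hY hL hR hr a ha hkp
  have h0 : x0 ≤ x := le_trans (le_max_left _ _) hx
  have hx1 : 1 ≤ x := le_trans ((le_max_left _ _).trans (le_max_right _ _)) hx
  have hx2 : Real.exp 5 ≤ x := by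
    have h1 : ⌈Real.exp 5⌉₊ ≤ x := le_trans ((le_max_right _ _).trans (le_max_right _ _)) hx
    exact (Nat.le_ceil _).trans (by exact_mod_cast h1)
  have hx0 : (0 : ℝ) < x := by exact_mod_cast hx1
  have hl5 : (5 : ℝ) ≤ Real.log x := by
    rw [Real.le_log_iff_exp_le hx0]
    exact hx2
  have hk0 : (0 : ℝ) < k := by exact_mod_cast hk
  have hmain := rt_main A x0 hRB x k Y1 Y2 L r h0 hx1 hk (by omega) hY hR a ha hkp
  refine hmain.trans ?_
  set Sg : ℝ := ∑ p ∈ pr Y1 Y2, 1 / (p : ℝ) with hSg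
  have hgp : ∀ p ∈ pr Y1 Y2, (0 : ℝ) < (p : ℝ) - 1 ∧ 1 / ((p : ℝ) - 1) ≤ 2 * (1 / (p : ℝ)) := by
    intro p hp
    have h2 : (2 : ℝ) ≤ p := by exact_mod_cast (rt_mem.mp hp).2.two_le
    refine ⟨by linarith, ?_⟩
    rw [mul_one_div, div_le_div_iff₀ (by linarith) (by linarith)]
    linarith
  have hp1 : ∏ p ∈ pr Y1 Y2, (1 + (L : ℝ) / (p : ℝ)) ≤ Real.exp (1 * L * Sg) :=
    rt_exp (pr Y1 Y2) (fun p => (p : ℝ)) L 1
      (fun p hp => by have := (hgp p hp).1; linarith) (fun p hp => by rw [one_mul])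
  have hp2 : ∏ p ∈ pr Y1 Y2, (1 + (L : ℝ) / ((p : ℝ) - 1)) ≤ Real.exp (2 * L * Sg) :=
    rt_exp (pr Y1 Y2) (fun p => (p : ℝ) - 1) L 2
      (fun p hp => (hgp p hp).1) (fun p hp => (hgp p hp).2)
  have hp20 : 0 ≤ ∏ p ∈ pr Y1 Y2, (1 + (L : ℝ) / ((p : ℝ) - 1)) := by
    refine prod_nonneg fun p hp => ?_
    have := (hgp p hp).1
    positivity
  have hprod : (∏ p ∈ pr Y1 Y2, (1 + (L : ℝ) / (p : ℝ))) *
      ∏ p ∈ pr Y1 Y2, (1 + (L : ℝ) / ((p : ℝ) - 1)) ≤ Real.exp (3 * L * Sg) := by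
    calc (∏ p ∈ pr Y1 Y2, (1 + (L : ℝ) / (p : ℝ))) *
        ∏ p ∈ pr Y1 Y2, (1 + (L : ℝ) / ((p : ℝ) - 1))
        ≤ Real.exp (1 * L * Sg) * Real.exp (2 * L * Sg) :=
          mul_le_mul hp1 hp2 hp20 (Real.exp_pos _).le
      _ = Real.exp (3 * L * Sg) := by
          rw [← Real.exp_add]
          congr 1
          ring
  -- the number of dyadic intervals
  have hI : ((Nat.log 2 Y2 + 1 : ℕ) : ℝ) ≤ 3 * Real.log x := by
    have hRx : Y2 ≤ x := by
      refine le_trans ?_ hR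
      calc Y2 ≤ Y2 ^ r := Nat.le_self_pow (by omega) _
        _ ≤ k * Y2 ^ r := Nat.le_mul_of_pos_left _ (by omega)
        _ ≤ (k * Y2 ^ r) ^ 4 := Nat.le_self_pow (by norm_num) _
    have h1 : 2 ^ (Nat.log 2 Y2) ≤ Y2 := Nat.pow_log_le_self 2 (by omega)
    have h2 : ((2 : ℝ)) ^ (Nat.log 2 Y2) ≤ x := by exact_mod_cast h1.trans hRx
    have h3 : (Nat.log 2 Y2 : ℝ) * Real.log 2 ≤ Real.log x := by
      rw [← Real.log_pow]
      exact Real.log_le_log (by positivity) h2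
    have h5 : (1 / 2 : ℝ) ≤ Real.log 2 := by linarith [Real.log_two_gt_d9]
    have h6 : (0 : ℝ) ≤ (Nat.log 2 Y2 : ℝ) := by positivity
    have h7 : (Nat.log 2 Y2 : ℝ) * (1 / 2) ≤ Nat.log 2 Y2 * Real.log 2 :=
      mul_le_mul_of_nonneg_left h5 h6
    push_cast
    linarith
  have hxp : (0 : ℝ) ≤ (x : ℝ) ^ (-(1 / 50) : ℝ) := by positivity
  have hY0 : (0 : ℝ) ≤ 1 / (Y1 : ℝ) := by positivity
  have hbr : 2 / (Y1 : ℝ) + ((Nat.log 2 Y2 + 1 : ℕ) : ℝ) * (x : ℝ) ^ (-(1 / 50) : ℝ)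
      ≤ Real.log x ^ 2 * (1 / Y1 + (x : ℝ) ^ (-(1 / 50) : ℝ)) := by
    have h1 : (2 : ℝ) ≤ Real.log x ^ 2 := by nlinarith
    have h2 : 3 * Real.log x ≤ Real.log x ^ 2 := by nlinarith
    have h3 : 2 / (Y1 : ℝ) = 2 * (1 / Y1) := by ring
    rw [h3, mul_add]
    exact add_le_add (mul_le_mul_of_nonneg_right h1 hY0)
      (mul_le_mul_of_nonneg_right (hI.trans h2) hxp)
  have hxk : (0 : ℝ) ≤ x / k := by positivity
  have hlA : 0 ≤ Real.log x ^ A := by positivity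
  have hbr0 : 0 ≤ 2 / (Y1 : ℝ) + ((Nat.log 2 Y2 + 1 : ℕ) : ℝ) * (x : ℝ) ^ (-(1 / 50) : ℝ) := by
    positivity
  calc ((∏ p ∈ pr Y1 Y2, (1 + (L : ℝ) / (p : ℝ))) *
        ∏ p ∈ pr Y1 Y2, (1 + (L : ℝ) / ((p : ℝ) - 1))) *
      (L * (x / k * Real.log x ^ A *
        (2 / Y1 + ((Nat.log 2 Y2 + 1 : ℕ) : ℝ) * (x : ℝ) ^ (-(1 / 50) : ℝ))))
      ≤ Real.exp (3 * L * Sg) * (L * (x / k * Real.log x ^ A *
        (Real.log x ^ 2 * (1 / Y1 + (x : ℝ) ^ (-(1 / 50) : ℝ))))) := by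
        refine mul_le_mul hprod ?_ (by positivity) (Real.exp_pos _).le
        refine mul_le_mul_of_nonneg_left ?_ (by positivity)
        exact mul_le_mul_of_nonneg_left hbr (by positivity)
    _ = L * Real.exp (3 * L * Sg) * (x / k) * Real.log x ^ (A + 2) *
      (1 / Y1 + (x : ℝ) ^ (-(1 / 50) : ℝ)) := by
        rw [pow_add]
        ring

end Pool.Agent.Helper32.MC
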